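import Pool.Agent.Helper18.FF3.Stmts

/-!
# GFX: rational functions over `A` fixed by all automorphisms of `A` over `F` come from `F`
-/

set_option autoImplicit false

namespace Pool.Agent.Helper18.FF3

open Polynomial Pool.Agent.Helper14.BSC Pool.Agent.Helper60.FF

/-- elements of `A` fixed by all `F`-endomorphisms come from `F` -/
theorem gfx_coeff (F A : Type) [Field F] [CharZero F] [Field A] [IsAlgClosed A] (ι : F →+* A)
    (halg : ∀ a : A, ∃ G : Polynomial F, G ≠ 0 ∧ G.eval₂ ι a = 0) (a : A)
    (ha : ∀ g : A →+* A, g.comp ι = ι → g a = a) : ∃ b : F, ι b = a := by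
  let _ : Algebra F A := ι.toAlgebra
  have hι : algebraMap F A = ι := rfl
  have h1 : Algebra.IsAlgebraic F A := ⟨fun z => by
    obtain ⟨G, hG, hz⟩ := halg z
    exact ⟨G, hG, hz⟩⟩
  have : IsAlgClosure F A := ⟨inferInstance, h1⟩
  have : IsGalois F A := IsAlgClosure.isGalois F A
  have h2 : a ∈ (⊥ : IntermediateField F A) := by
    rw [InfiniteGalois.mem_bot_iff_fixed]
    intro f
    refine ha (f : A →+* A) ?_
    ext z
    exact f.commutes z
  rw [IntermediateField.mem_bot] at h2
  obtain ⟨b, hb⟩ := h2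
  exact ⟨b, hb⟩

theorem gfx_mp {F A : Type} [Field F] [Field A] (ι : F →+* A) (x : RatFunc F) :
    mp ι x = algebraMap A[X] (RatFunc A) (x.num.map ι) /
      algebraMap A[X] (RatFunc A) (x.denom.map ι) := by
  unfold mp
  rw [RatFunc.coe_mapRingHom_eq_coe_map, RatFunc.map_apply]
  rfl

theorem gfx_mp_div {F A : Type} [Field F] [Field A] (ι : F →+* A) (n d : F[X]) :
    mp ι (algebraMap F[X] (RatFunc F) n / algebraMap F[X] (RatFunc F) d) =
      algebraMap A[X] (RatFunc A) (n.map ι) / algebraMap A[X] (RatFunc A) (d.map ι) := by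
  unfold mp
  rw [RatFunc.coe_mapRingHom_eq_coe_map, RatFunc.map_apply_div]
  rfl

/-- a fixed rational function has fixed numerator and denominator -/
theorem gfx_fix {A : Type} [Field A] (g : A →+* A) (x : RatFunc A) (h : mp g x = x) :
    x.num.map g = x.num ∧ x.denom.map g = x.denom := by
  have hd : x.denom ≠ 0 := x.denom_ne_zero
  have hdg : x.denom.map g ≠ 0 := (Polynomial.map_ne_zero_iff g.injective).mpr hd
  have h1 : x.num.map g * x.denom = x.num * x.denom.map g := by
    have h2 : algebraMap A[X] (RatFunc A) (x.num.map g) /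
        algebraMap A[X] (RatFunc A) (x.denom.map g) =
        algebraMap A[X] (RatFunc A) x.num / algebraMap A[X] (RatFunc A) x.denom := by
      rw [← gfx_mp, RatFunc.num_div_denom, h]
    rw [div_eq_div_iff (RatFunc.algebraMap_ne_zero hdg) (RatFunc.algebraMap_ne_zero hd),
      ← map_mul, ← map_mul] at h2
    exact RatFunc.algebraMap_injective A h2
  have hcop : IsCoprime x.denom x.num := x.isCoprime_num_denom.symm
  have hdvd : x.denom ∣ x.denom.map g := by
    apply hcop.dvd_of_dvd_mul_left
    rw [← h1]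
    exact dvd_mul_left _ _
  have hmon : x.denom.Monic := x.monic_denom
  have hmong : (x.denom.map g).Monic := hmon.map g
  have heq : x.denom.map g = x.denom := by
    refine Polynomial.eq_of_monic_of_dvd_of_natDegree_le hmon hmong hdvd ?_
    rw [Polynomial.natDegree_map]
  refine ⟨?_, heq⟩
  rw [heq] at h1
  exact mul_right_cancel₀ hd h1

theorem st_GFX : ST_GFX := by
  intro F A _ _ _ _ ι halg x hx
  have hnum : ∃ n0 : F[X], n0.map ι = x.num := by
    have h1 : x.num ∈ Polynomial.lifts ι := by
      rw [Polynomial.lifts_iff_coeff_lifts]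
      intro n
      obtain ⟨b, hb⟩ := gfx_coeff F A ι halg (x.num.coeff n) (fun g hg => by
        have h2 := (gfx_fix g x (hx g hg)).1
        conv_rhs => rw [← h2]
        rw [Polynomial.coeff_map])
      exact ⟨b, hb⟩
    rw [Polynomial.mem_lifts] at h1
    exact h1
  have hden : ∃ d0 : F[X], d0.map ι = x.denom := by
    have h1 : x.denom ∈ Polynomial.lifts ι := by
      rw [Polynomial.lifts_iff_coeff_lifts]
      intro n
      obtain ⟨b, hb⟩ := gfx_coeff F A ι halg (x.denom.coeff n) (fun g hg => by
        have h2 := (gfx_fix g x (hx g hg)).2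
        conv_rhs => rw [← h2]
        rw [Polynomial.coeff_map])
      exact ⟨b, hb⟩
    rw [Polynomial.mem_lifts] at h1
    exact h1
  obtain ⟨n0, hn0⟩ := hnum
  obtain ⟨d0, hd0⟩ := hden
  refine ⟨algebraMap F[X] (RatFunc F) n0 / algebraMap F[X] (RatFunc F) d0, ?_⟩
  rw [gfx_mp_div, hn0, hd0, RatFunc.num_div_denom]

end Pool.Agent.Helper18.FF3
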